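import Pool.Agent.W631.CU.Final
import Pool.Agent.W631.CU.Forced
import Pool.Agent.W631.CU.Sanity

/-!
# The existence of a `C_p`-universal compact space of weight `κ` is not provable, for any
uncountable `κ`

The problem asks, for an infinite cardinal `κ`, whether ZFC proves that there is a compact space `W`
of weight `κ` such that `C_p(X)` embeds (Q1), or embeds linearly (Q2), in `C_p(W)` for every compact
space `X` of weight at most `κ`. For `κ = ℵ₀` this is known; the answer is negative for every
uncountable `κ`, for both questions.

* For every uncountable set `K` some forcing notion (adding `2 ^ |K|` Cohen reals) preserves cardinals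
  and forces the principle `CohenPrinciple K`, a simple combinatorial statement on generic sequences.
* `CohenPrinciple K` implies that for every compact space `W` of weight at most `|K|` there is a
  compact Hausdorff space `X` of weight at most `ℵ₁` such that `C_p(X)` is not homeomorphic to a
  subspace of `C_p(W)`.

The forcing language is the one of `Pool.Agent.Helper669.Forcing`: a sentence is the set of the
conditions which force it, `fnot`, `fand`, `fall` are the primitive connectives and `fimp`, `fex`
are defined from them classically; a name for a subset of a ground model set `X` is a map sending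
`x : X` to a set of conditions, and `meets N` says that the generic filter meets `N`. The sentence
`CohenPrincipleN K P` is the translation into the forcing language of the proposition
`CohenPrinciple K` (both are in `Pool.Agent.W631.CU.Defs`).
-/

set_option autoImplicit false

namespace Pool.Agent.Results.MP_32ee98_gt.NoUniversal

open Cardinal Topology Pool.Agent.Helper669.Forcing Pool.Agent.W684.FM Pool.Agent.W631.CG
  Pool.Agent.W631.CU

/-- The weight of `X`: the least cardinality of a base of its topology. -/
noncomputable def weight (X : Type) [TopologicalSpace X] : Cardinal.{0} :=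
  sInf {c | ∃ B : Set (Set X), TopologicalSpace.IsTopologicalBasis B ∧ #B = c}

theorem weight_le_iff {X : Type} [TopologicalSpace X] {κ : Cardinal.{0}} :
    weight X ≤ κ ↔ WeightLe X κ := by
  constructor
  · intro h
    have h1 : sInf {c | ∃ B : Set (Set X), TopologicalSpace.IsTopologicalBasis B ∧ #B = c} ∈
        {c | ∃ B : Set (Set X), TopologicalSpace.IsTopologicalBasis B ∧ #B = c} :=
      csInf_mem ⟨_, _, TopologicalSpace.isTopologicalBasis_opens, rfl⟩
    obtain ⟨B, hB, hB2⟩ := h1
    exact ⟨B, hB, hB2.le.trans h⟩
  · rintro ⟨B, hB, hB2⟩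
    refine le_trans (csInf_le' ?_) hB2
    exact ⟨B, hB, rfl⟩

/-- `W` is `C_p`-universal for weight `κ`: it is a compact Hausdorff space of weight `κ`, and
`C_p(X)` is homeomorphic to a subspace of `C_p(W)` for every compact Hausdorff space `X` of weight
at most `κ`. -/
def CpUniversal (κ : Cardinal.{0}) (W : Type) [TopologicalSpace W] : Prop :=
  CompactSpace W ∧ T2Space W ∧ weight W = κ ∧
    ∀ (X : Type) [TopologicalSpace X] [CompactSpace X] [T2Space X], weight X ≤ κ →
      ∃ e : C(X, ℝ) → C(W, ℝ), @IsEmbedding _ _ (cpTop X) (cpTop W) e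

/-- `W` is linearly `C_p`-universal for weight `κ`: the same, with linear embeddings. -/
def LinearlyCpUniversal (κ : Cardinal.{0}) (W : Type) [TopologicalSpace W] : Prop :=
  CompactSpace W ∧ T2Space W ∧ weight W = κ ∧
    ∀ (X : Type) [TopologicalSpace X] [CompactSpace X] [T2Space X], weight X ≤ κ →
      ∃ e : C(X, ℝ) →ₗ[ℝ] C(W, ℝ), @IsEmbedding _ _ (cpTop X) (cpTop W) e

/-- Let `K` be an uncountable set. (1) There is a preordered set `P` of forcing conditions such that
every condition forces that all cardinals of the ground model are cardinals, that `ω₁` is preserved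
and that the principle `CohenPrinciple K` holds. (2) The principle `CohenPrinciple K` implies that
for every compact space `W` of weight at most `|K|` there is a compact Hausdorff space `X` of weight
at most `ℵ₁` such that `C_p(X)` is not homeomorphic to a subspace of `C_p(W)`. So there is no
`C_p`-universal and no linearly `C_p`-universal space for any weight `κ` with `ℵ₀ < κ ≤ |K|`.
(3) The sentence `CohenPrincipleN K P` used in (1) is a translation of `CohenPrinciple K`: for the
trivial forcing notion they are equivalent. -/
theorem result (K : Type) (hK : ℵ₀ < #K) :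
    (∃ (P : Type) (_ : Preorder P), Nonempty P ∧ ∀ p : P,
      p ∈ CardinalsPreserved.{0, 0} P ∧ p ∈ OmegaOnePreserved P ∧ p ∈ CohenPrincipleN K P) ∧
    (CohenPrinciple K →
      (∀ (W : Type) [TopologicalSpace W] [CompactSpace W], weight W ≤ #K →
        ∃ (X : Type) (_ : TopologicalSpace X) (_ : CompactSpace X) (_ : T2Space X),
          weight X ≤ ℵ₁ ∧
            ¬ ∃ e : C(X, ℝ) → C(W, ℝ), @IsEmbedding _ _ (cpTop X) (cpTop W) e) ∧
      ∀ κ : Cardinal.{0}, ℵ₀ < κ → κ ≤ #K →
        (¬ ∃ (W : Type) (_ : TopologicalSpace W), CpUniversal κ W) ∧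
        (¬ ∃ (W : Type) (_ : TopologicalSpace W), LinearlyCpUniversal κ W)) ∧
    (() ∈ CohenPrincipleN K Unit ↔ CohenPrinciple K) := by
  refine ⟨?_, fun h => ?_, Sanity.cohenPrinciple K⟩
  · have hJ : #K < #(Set K) := by
      rw [Cardinal.mk_set]
      exact Cardinal.cantor _
    refine ⟨Fn (Set K × ℕ) Digit, inferInstance, ⟨⟨∅, fun _ => (false, false)⟩⟩, fun p => ?_⟩
    exact ⟨Fn.pccc.cardinalsPreserved p, Fn.pccc.omegaOnePreserved p, forced hK hJ p⟩
  · have main : ∀ (W : Type) [TopologicalSpace W] [CompactSpace W], weight W ≤ #K →
        ∃ (X : Type) (_ : TopologicalSpace X) (_ : CompactSpace X) (_ : T2Space X),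
          weight X ≤ ℵ₁ ∧
            ¬ ∃ e : C(X, ℝ) → C(W, ℝ), @IsEmbedding _ _ (cpTop X) (cpTop W) e := by
      intro W _ _ hW
      obtain ⟨G, hG⟩ := no_universal hK.le h W (weight_le_iff.1 hW)
      exact ⟨XSet G, inferInstance, inferInstance, inferInstance, weight_le_iff.2 (weightLe G), hG⟩
    refine ⟨main, fun κ hκ hκK => ?_⟩
    have h1 : ℵ₁ ≤ κ := by
      rw [← Cardinal.succ_aleph0]
      exact Order.succ_le_of_lt hκ
    constructor
    · rintro ⟨W, _, hc, _, hw, hu⟩
      obtain ⟨X, _, _, _, hX, hn⟩ := main W (hw.le.trans hκK)
      exact hn (hu X (hX.trans h1))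
    · rintro ⟨W, _, hc, _, hw, hu⟩
      obtain ⟨X, _, _, _, hX, hn⟩ := main W (hw.le.trans hκK)
      obtain ⟨e, he⟩ := hu X (hX.trans h1)
      exact hn ⟨e, he⟩

end Pool.Agent.Results.MP_32ee98_gt.NoUniversal
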